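import Pool.Agent.Helper99.LZ.Quad

/-!
# Packets R1 and R2 : natural rows
-/

set_option autoImplicit false

open Finset Pool.Agent.Helper99.LZ

namespace Pool.Agent.Helper54.LZ

/-- weighted double sum -/
noncomputable def S (a b : ℤ) (m f : ℤ → ℤ → ℝ) : ℝ :=
  ∑ i ∈ Icc a b, ∑ i' ∈ Icc a b, m i i' * f i i'

lemma S_add (a b : ℤ) (m f g : ℤ → ℤ → ℝ) :
    S a b m (fun i i' => f i i' + g i i') = S a b m f + S a b m g := by
  simp [S, mul_add, Finset.sum_add_distrib]

lemma S_smul (a b : ℤ) (m f : ℤ → ℤ → ℝ) (c : ℝ) :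
    S a b m (fun i i' => c * f i i') = c * S a b m f := by
  simp only [S, Finset.mul_sum]
  refine Finset.sum_congr rfl fun i _ => Finset.sum_congr rfl fun i' _ => by ring

lemma S_congr (a b : ℤ) (m f g : ℤ → ℤ → ℝ)
    (h : ∀ i i', m i i' ≠ 0 → f i i' = g i i') : S a b m f = S a b m g := by
  refine Finset.sum_congr rfl fun i _ => Finset.sum_congr rfl fun i' _ => ?_
  by_cases h0 : m i i' = 0
  · simp [h0]
  · rw [h i i' h0]

lemma S_nonneg (a b : ℤ) (m f : ℤ → ℤ → ℝ) (hm : ∀ i i', 0 ≤ m i i')
    (h : ∀ i i', 0 ≤ f i i') : 0 ≤ S a b m f :=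
  Finset.sum_nonneg fun i _ => Finset.sum_nonneg fun i' _ => mul_nonneg (hm i i') (h i i')

variable {T : Pr} {a b : ℤ} {m : ℤ → ℤ → ℝ}

lemma zero_of_notMem (hc : Cpl T a b m) {i i' : ℤ} (h : i ∉ Icc a b ∨ i' ∉ Icc a b) :
    m i i' = 0 := by
  by_contra h0
  obtain ⟨h1, h2, h3⟩ := hc.supp i i' h0
  rcases h with h | h <;> apply h <;> rw [Finset.mem_Icc] <;> constructor <;> linarith

/-- restriction to one row -/
lemma S_row (hc : Cpl T a b m) (k : ℤ) (f : ℤ → ℤ → ℝ) :
    S a b m (fun i i' => if i = k then f i i' else 0) = ∑ i' ∈ Icc a b, m k i' * f k i' := by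
  unfold S
  have : ∀ i ∈ Icc a b, (∑ i' ∈ Icc a b, m i i' * (if i = k then f i i' else 0)) =
      if i = k then ∑ i' ∈ Icc a b, m k i' * f k i' else 0 := by
    intro i _
    by_cases h : i = k
    · subst h; simp
    · simp [h]
  rw [Finset.sum_congr rfl this, Finset.sum_ite_eq']
  split_ifs with hk
  · rfl
  · symm
    refine Finset.sum_eq_zero fun i' _ => ?_
    rw [zero_of_notMem hc (Or.inl hk), zero_mul]

/-- restriction to one column -/
lemma S_col (hc : Cpl T a b m) (k : ℤ) (f : ℤ → ℤ → ℝ) :
    S a b m (fun i i' => if i' = k then f i i' else 0) = ∑ i ∈ Icc a b, m i k * f i k := by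
  unfold S
  rw [Finset.sum_comm]
  have : ∀ i' ∈ Icc a b, (∑ i ∈ Icc a b, m i i' * (if i' = k then f i i' else 0)) =
      if i' = k then ∑ i ∈ Icc a b, m i k * f i k else 0 := by
    intro i' _
    by_cases h : i' = k
    · subst h; simp
    · simp [h]
  rw [Finset.sum_congr rfl this, Finset.sum_ite_eq']
  split_ifs with hk
  · rfl
  · symm
    refine Finset.sum_eq_zero fun i _ => ?_
    rw [zero_of_notMem hc (Or.inr hk), zero_mul]

lemma S_row_one (hc : Cpl T a b m) (k : ℤ) :
    S a b m (fun i _ => if i = k then 1 else 0) = T.L k := by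
  have := S_row hc k (fun _ _ => 1)
  rw [this]; simp [hc.row k]

lemma S_col_one (hc : Cpl T a b m) (k : ℤ) :
    S a b m (fun _ i' => if i' = k then 1 else 0) = T.R k := by
  have := S_col hc k (fun _ _ => 1)
  rw [this]; simp [hc.col k]

/-- sum of `m * xc` on the block `k` -/
lemma S_row_xc (hc : Cpl T a b m) (xN xI : ℤ → ℝ) (k : ℤ) :
    S a b m (fun i i' => if i = k then xc xN xI i i' else 0) =
      m k k * xI k + (T.L k - m k k) * xN k := by
  rw [S_row hc k (xc xN xI)]
  have h1 : ∀ i' ∈ Icc a b, m k i' * xc xN xI k i' =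
      m k i' * xN k + if k = i' then m k i' * (xI k - xN k) else 0 := by
    intro i' _
    unfold xc
    split_ifs <;> ring
  rw [Finset.sum_congr rfl h1, Finset.sum_add_distrib, ← Finset.sum_mul, hc.row k,
    Finset.sum_ite_eq]
  split_ifs with hk
  · ring
  · rw [zero_of_notMem hc (Or.inl hk)]; ring

lemma S_col_nc (hc : Cpl T a b m) (nN nI : ℤ → ℝ) (k : ℤ) :
    S a b m (fun i i' => if i' = k then nc nN nI i i' else 0) =
      m k k * nI k + (T.R k - m k k) * nN k := by
  rw [S_col hc k (nc nN nI)]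
  have h1 : ∀ i ∈ Icc a b, m i k * nc nN nI i k =
      m i k * nN k + if i = k then m i k * (nI k - nN k) else 0 := by
    intro i _
    unfold nc
    split_ifs <;> ring
  rw [Finset.sum_congr rfl h1, Finset.sum_add_distrib, ← Finset.sum_mul, hc.col k,
    Finset.sum_ite_eq']
  split_ifs with hk
  · ring
  · rw [zero_of_notMem hc (Or.inl hk)]; ring

/-- cumulative mass of rows -/
lemma cumP (hr : T.Reg a b) (k : ℤ) :
    ∑ i ∈ Icc a b, (if i < k then T.L i else 0) = T.P (k - 1) := by
  rcases lt_or_ge k a with hk | hk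
  · rw [(hr.lo (k - 1) (by linarith)).1]
    refine Finset.sum_eq_zero fun i hi => ?_
    rw [Finset.mem_Icc] at hi
    rw [if_neg (by linarith [hi.1])]
  · induction k, hk using Int.leInduction with
    | base =>
      rw [(hr.lo (a - 1) (by linarith)).1]
      refine Finset.sum_eq_zero fun i hi => ?_
      rw [Finset.mem_Icc] at hi
      rw [if_neg (by linarith [hi.1])]
    | succ k hk ih =>
      have h1 : ∀ i ∈ Icc a b, (if i < k + 1 then T.L i else 0) =
          (if i < k then T.L i else 0) + if i = k then T.L k else 0 := by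
        intro i _
        rcases lt_trichotomy i k with h | h | h
        · rw [if_pos (by linarith), if_pos h, if_neg (by linarith), add_zero]
        · subst h; simp
        · rw [if_neg (by omega), if_neg (by omega), if_neg (by omega), add_zero]
      rw [Finset.sum_congr rfl h1, Finset.sum_add_distrib, ih, Finset.sum_ite_eq']
      have h2 : (k + 1 - 1 : ℤ) = k := by ring
      rw [h2]
      split_ifs with hm
      · unfold Pr.L; ring
      · rw [Finset.mem_Icc] at hm
        have hb : b ≤ k - 1 := by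
          by_contra hcon
          exact hm ⟨hk, by omega⟩
        rw [(hr.hi k (by linarith)).1, (hr.hi (k - 1) hb).1, add_zero]

lemma cumQ (hr : T.Reg a b) (k : ℤ) :
    ∑ i ∈ Icc a b, (if i ≤ k then T.R i else 0) = T.Q k := by
  rcases lt_or_ge k a with hk | hk
  · rw [(hr.lo k hk).2]
    refine Finset.sum_eq_zero fun i hi => ?_
    rw [Finset.mem_Icc] at hi
    rw [if_neg (by linarith [hi.1])]
  · have key : ∀ k : ℤ, a - 1 ≤ k → ∑ i ∈ Icc a b, (if i ≤ k then T.R i else 0) = T.Q k := by
      intro k hk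
      induction k, hk using Int.leInduction with
      | base =>
        rw [(hr.lo (a - 1) (by linarith)).2]
        refine Finset.sum_eq_zero fun i hi => ?_
        rw [Finset.mem_Icc] at hi
        rw [if_neg (by linarith [hi.1])]
      | succ k hk ih =>
        have h1 : ∀ i ∈ Icc a b, (if i ≤ k + 1 then T.R i else 0) =
            (if i ≤ k then T.R i else 0) + if i = k + 1 then T.R (k + 1) else 0 := by
          intro i _
          rcases lt_trichotomy i (k + 1) with h | h | h
          · rw [if_pos (by omega), if_pos (by omega), if_neg (by omega), add_zero]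
          · subst h; simp
          · rw [if_neg (by omega), if_neg (by omega), if_neg (by omega), add_zero]
        rw [Finset.sum_congr rfl h1, Finset.sum_add_distrib, ih, Finset.sum_ite_eq']
        split_ifs with hm
        · have h2 : (k + 1 - 1 : ℤ) = k := by ring
          unfold Pr.R; rw [h2]; ring
        · rw [Finset.mem_Icc] at hm
          have hb : b ≤ k := by
            by_contra hcon
            exact hm ⟨by omega, by omega⟩
          rw [(hr.hi (k + 1) (by linarith)).2, (hr.hi k hb).2, add_zero]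
    exact key k (by linarith)

lemma S_lt_one (hc : Cpl T a b m) (hr : T.Reg a b) (k : ℤ) :
    S a b m (fun i _ => if i < k then 1 else 0) = T.P (k - 1) := by
  rw [← cumP hr k]
  refine Finset.sum_congr rfl fun i _ => ?_
  by_cases h : i < k
  · simp [h, hc.row i]
  · simp [h]

lemma S_le_one (hc : Cpl T a b m) (hr : T.Reg a b) (k : ℤ) :
    S a b m (fun _ i' => if i' ≤ k then 1 else 0) = T.Q k := by
  rw [← cumQ hr k]
  unfold S
  rw [Finset.sum_comm]
  refine Finset.sum_congr rfl fun i _ => ?_
  by_cases h : i ≤ k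
  · simp [h, hc.col i]
  · simp [h]

lemma S_Am (ζ : ℤ → ℤ → ℝ) (k : ℤ) :
    S a b m (fun i i' => if i < k then ζ i i' else 0) = Am a b m ζ k := by
  unfold S Am
  refine Finset.sum_congr rfl fun i _ => Finset.sum_congr rfl fun i' _ => ?_
  by_cases h : i < k
  · simp only [if_pos h]
  · simp only [if_neg h, mul_zero]

lemma S_Bm (ζ : ℤ → ℤ → ℝ) (k : ℤ) :
    S a b m (fun i i' => if i' ≤ k then ζ i i' else 0) = Bm a b m ζ k := by
  unfold S Bm
  refine Finset.sum_congr rfl fun i _ => Finset.sum_congr rfl fun i' _ => ?_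
  by_cases h : i' ≤ k
  · simp only [if_pos h]
  · simp only [if_neg h, mul_zero]

/-- Cauchy-Schwarz for the weighted double sum restricted to a set of pieces -/
lemma S_cs (hm : ∀ i i', 0 ≤ m i i') (p : ℤ → ℤ → Prop) [∀ i i', Decidable (p i i')]
    (ζ : ℤ → ℤ → ℝ) :
    (S a b m (fun i i' => if p i i' then ζ i i' else 0)) ^ 2 ≤
      S a b m (fun i i' => if p i i' then 1 else 0) *
        S a b m (fun i i' => if p i i' then ζ i i' ^ 2 else 0) := by
  set S0 := S a b m (fun i i' => if p i i' then 1 else 0) with hS0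
  set S1 := S a b m (fun i i' => if p i i' then ζ i i' else 0) with hS1
  set S2 := S a b m (fun i i' => if p i i' then ζ i i' ^ 2 else 0) with hS2
  have key : ∀ t : ℝ, 0 ≤ S0 * t ^ 2 - 2 * S1 * t + S2 := by
    intro t
    have h1 : 0 ≤ S a b m (fun i i' => if p i i' then (t - ζ i i') ^ 2 else 0) :=
      S_nonneg _ _ _ _ hm (fun i i' => by split_ifs <;> positivity)
    have h2 : S a b m (fun i i' => if p i i' then (t - ζ i i') ^ 2 else 0) =
        S0 * t ^ 2 - 2 * S1 * t + S2 := by
      have h3 : S a b m (fun i i' => if p i i' then (t - ζ i i') ^ 2 else 0) =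
          S a b m (fun i i' => (t ^ 2 * (if p i i' then 1 else 0) +
            (-2 * t) * (if p i i' then ζ i i' else 0)) + (if p i i' then ζ i i' ^ 2 else 0)) := by
        refine S_congr _ _ _ _ _ fun i i' _ => ?_
        split_ifs <;> ring
      rw [h3, S_add, S_add, S_smul, S_smul, ← hS0, ← hS1, ← hS2]
      ring
    linarith
  have hS0' : 0 ≤ S0 := S_nonneg _ _ _ _ hm (fun i i' => by split_ifs <;> norm_num)
  rcases hS0'.eq_or_lt with h0 | h0
  · -- S0 = 0
    have hz : S1 = 0 := by
      by_contra hne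
      have := key ((S2 + 1) / (2 * S1))
      rw [← h0] at this
      have h5 : 2 * S1 * ((S2 + 1) / (2 * S1)) = S2 + 1 := by field_simp
      linarith
    rw [hz, ← h0]; simp
  · have := key (S1 / S0)
    have h6 : S0 * (S1 / S0) ^ 2 - 2 * S1 * (S1 / S0) + S2 = S2 - S1 ^ 2 / S0 := by
      field_simp; ring
    rw [h6] at this
    have h7 : S1 ^ 2 / S0 ≤ S2 := by linarith
    rw [div_le_iff₀ h0] at h7
    linarith

/-- the algebraic heart -/
lemma heart (g L L1 R R1 ξ ν S1 S2 : ℝ) (hg : 0 ≤ g) (hL : 0 ≤ L) (hR : 0 ≤ R)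
    (hLz : L = 0 → ξ = 0) (hRz : R = 0 → ν = 0)
    (hop : ∀ x y w x' y' w' : ℝ,
      0 < x * x * (g + L + L1) + (x * y + y * x) * (g + L + R) + y * y * (g + R + R1)
        + (x * w + w * x) * (g + L) + (y * w + w * y) * (g + R) + w * w * g →
      (x * x * (g + L + L1) + (x * y + y * x) * (g + L + R) + y * y * (g + R + R1)
        + (x * w + w * x) * (g + L) + (y * w + w * y) * (g + R) + w * w * g) *
      (x' * x' * (g + L + L1) + (x' * y' + y' * x') * (g + L + R) + y' * y' * (g + R + R1)
        + (x' * w' + w' * x') * (g + L) + (y' * w' + w' * y') * (g + R) + w' * w' * g) ≤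
      (x * x' * (g + L + L1) + (x * y' + y * x') * (g + L + R) + y * y' * (g + R + R1)
        + (x * w' + w * x') * (g + L) + (y * w' + w * y') * (g + R) + w * w' * g) ^ 2)
    (h1 : S1 = L * ξ - R * ν) (hcs : S1 ^ 2 ≤ g * S2) (hS2 : 0 ≤ S2) :
    0 ≤ (L - L1) * ξ ^ 2 + (R - R1) * ν ^ 2 + S2 := by
  rcases hg.eq_or_lt with h0 | h0
  · -- g = 0
    subst h0
    have hS1 : S1 = 0 := by nlinarith [sq_nonneg S1]
    rw [hS1] at h1
    by_cases hz : L = 0 ∧ R = 0
    · rw [hLz hz.1, hRz hz.2]; simpa using hS2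
    · have hpos : 0 < L + R := by
        rcases hL.eq_or_lt with h | h
        · rcases hR.eq_or_lt with h' | h'
          · exact absurd ⟨h.symm, h'.symm⟩ hz
          · linarith
        · linarith
      by_contra hcon
      push Not at hcon
      have hD : (L - L1) * ξ ^ 2 + (R - R1) * ν ^ 2 < 0 := by linarith
      have hQ : 0 < (-ξ) * (-ξ) * (0 + L + L1) + ((-ξ) * ν + ν * (-ξ)) * (0 + L + R)
          + ν * ν * (0 + R + R1) + ((-ξ) * 0 + 0 * (-ξ)) * (0 + L)
          + (ν * 0 + 0 * ν) * (0 + R) + 0 * 0 * 0 := by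
        have : (-ξ) * (-ξ) * (0 + L + L1) + ((-ξ) * ν + ν * (-ξ)) * (0 + L + R)
          + ν * ν * (0 + R + R1) + ((-ξ) * 0 + 0 * (-ξ)) * (0 + L)
          + (ν * 0 + 0 * ν) * (0 + R) + 0 * 0 * 0 =
          -((L - L1) * ξ ^ 2 + (R - R1) * ν ^ 2) + 2 * (ξ - ν) * (L * ξ - R * ν) := by ring
        rw [this, ← h1]; linarith
      set c := (-ξ) * (-ξ) * (0 + L + L1) + ((-ξ) * ν + ν * (-ξ)) * (0 + L + R)
          + ν * ν * (0 + R + R1) + ((-ξ) * 0 + 0 * (-ξ)) * (0 + L)
          + (ν * 0 + 0 * ν) * (0 + R) + 0 * 0 * 0 with hc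
      set q := (1 : ℝ) * 1 * (0 + L + L1) + (1 * 1 + 1 * 1) * (0 + L + R) +
        1 * 1 * (0 + R + R1) with hq
      set β := (-ξ) * 1 * (0 + L + L1) + ((-ξ) * 1 + ν * 1) * (0 + L + R)
          + ν * 1 * (0 + R + R1) with hβ
      -- w' = t
      have hall : ∀ t : ℝ, c * (q + 2 * t * (L + R)) ≤ β ^ 2 := by
        intro t
        have h3 := hop (-ξ) ν 0 1 1 t hQ
        have h4 : (1 : ℝ) * 1 * (0 + L + L1) + (1 * 1 + 1 * 1) * (0 + L + R)
            + 1 * 1 * (0 + R + R1) + (1 * t + t * 1) * (0 + L) + (1 * t + t * 1) * (0 + R)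
            + t * t * 0 = q + 2 * t * (L + R) := by rw [hq]; ring
        have h5 : (-ξ) * 1 * (0 + L + L1) + ((-ξ) * 1 + ν * 1) * (0 + L + R)
            + ν * 1 * (0 + R + R1) + ((-ξ) * t + 0 * 1) * (0 + L) + (ν * t + 0 * 1) * (0 + R)
            + 0 * t * 0 = β := by
          have : (-ξ) * t * L + ν * t * R = 0 := by linear_combination (t) * h1
          rw [hβ]; linear_combination this
        rw [h4, h5] at h3
        exact h3
      have h6 := hall ((β ^ 2 / c + 1 - q) / (2 * (L + R)))
      have h7 : 2 * ((β ^ 2 / c + 1 - q) / (2 * (L + R))) * (L + R) = β ^ 2 / c + 1 - q := by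
        field_simp
      rw [h7] at h6
      have h8 : c * (q + (β ^ 2 / c + 1 - q)) = β ^ 2 + c := by
        have : c ≠ 0 := ne_of_gt hQ
        field_simp; ring
      rw [h8] at h6
      linarith
  · -- g > 0
    have h3 := hop 0 0 1 (-ξ) ν 0 (by simpa using h0)
    have h4 : 0 ≤ g * ((L - L1) * ξ ^ 2 + (R - R1) * ν ^ 2) + (L * ξ - R * ν) ^ 2 := by
      nlinarith [h3]
    rw [← h1] at h4
    have h5 : 0 ≤ g * ((L - L1) * ξ ^ 2 + (R - R1) * ν ^ 2 + S2) := by nlinarith
    exact nonneg_of_mul_nonneg_right h5 h0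

/-- common part of R1 and R2: `k = n - 1 - j`, `k' = n - j'` -/
lemma core (hKAP : StmtKAP) (T : Pr) (n a b : ℤ) (m : ℤ → ℤ → ℝ) (opt : ℤ → Prop)
    (ζ : ℤ → ℤ → ℝ) (xN xI nN nI : ℤ → ℝ) (H : Hyp T n a b m opt ζ xN xI nN nI) (j j' k k' : ℤ)
    (hjj : j < j') (hk : k = n - 1 - j) (hk' : k' = n - j')
    (hx : xI k = xN k) (hn : nI k' = nN k')
    (hinst : k' < k ∨ m k k = 0)
    (hop : T.OP3 (k - 1) k' (T.H (k - 1) k')) :
    0 ≤ rowQ n a b m ζ xN xI nN nI j j' := by
  have hc := H.cpl
  have hr := H.hh.toReg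
  have hp := H.par
  have hle : k' ≤ k := by omega
  have hord : ∀ i i', m i i' ≠ 0 → i ≤ i' := fun i i' h => (hc.supp i i' h).2.1
  have hoc : ∀ i, m i i ≠ 0 → oc ζ xN xI nN nI i i = 0 := by
    intro i hi
    have h1 : T.h i < 0 := by
      by_contra hcon
      apply hi
      rw [hc.inst i]
      unfold Pr.al
      rw [max_eq_left (by linarith)]
    unfold oc xc nc
    rw [if_pos rfl, if_pos rfl, hp.om i h1]
    ring
  set ξ := xN k with hξ
  set ν := nN k' with hν
  -- known sums
  have hA : T.L k * ξ = Am a b m ζ k := by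
    have := hp.blkA k
    rw [hx] at this
    rw [← this]; ring
  have hB : T.R k' * ν = Bm a b m ζ k' := by
    have := hp.blkB k'
    rw [hn] at this
    rw [← this]; ring
  have e1 := S_row_one hc k
  have e1' := S_row_one hc (k + 1)
  have e2 := S_col_one hc k'
  have e2' := S_col_one hc (k' - 1)
  have e3 := S_row_xc hc xN xI (k + 1)
  rw [hp.blkA (k + 1)] at e3
  have e4 := S_col_nc hc nN nI (k' - 1)
  rw [hp.blkB (k' - 1)] at e4
  -- sums of zeta on the row k and the column k'
  have e5 : S a b m (fun i i' => if i = k then ζ i i' else 0) =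
      Am a b m ζ (k + 1) - Am a b m ζ k := by
    have h1 : S a b m (fun i i' => if i < k + 1 then ζ i i' else 0) =
        S a b m (fun i i' => (if i < k then ζ i i' else 0) + (if i = k then ζ i i' else 0)) := by
      refine S_congr _ _ _ _ _ fun i i' _ => ?_
      rcases lt_trichotomy i k with h | h | h
      · rw [if_pos (by omega), if_pos h, if_neg (by omega), add_zero]
      · subst h; simp
      · rw [if_neg (by omega), if_neg (by omega), if_neg (by omega), add_zero]
    rw [S_add, S_Am, S_Am] at h1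
    linarith
  have e6 : S a b m (fun i i' => if i' = k' then ζ i i' else 0) =
      Bm a b m ζ k' - Bm a b m ζ (k' - 1) := by
    have h1 : S a b m (fun i i' => if i' ≤ k' then ζ i i' else 0) =
        S a b m (fun i i' => (if i' ≤ k' - 1 then ζ i i' else 0) +
          (if i' = k' then ζ i i' else 0)) := by
      refine S_congr _ _ _ _ _ fun i i' _ => ?_
      rcases lt_trichotomy i' k' with h | h | h
      · rw [if_pos (by omega), if_pos (by omega), if_neg (by omega), add_zero]
      · subst h; simp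
      · rw [if_neg (by omega), if_neg (by omega), if_neg (by omega), add_zero]
    rw [S_add, S_Bm, S_Bm] at h1
    linarith
  -- the region i < k, i' > k'
  have reg : ∀ f : ℤ → ℤ → ℝ, S a b m (fun i i' => if i < k ∧ k' < i' then f i i' else 0) =
      S a b m (fun i i' => if i < k then f i i' else 0) -
      S a b m (fun i i' => if i' ≤ k' then f i i' else 0) := by
    intro f
    have h1 : S a b m (fun i i' => if i < k then f i i' else 0) =
        S a b m (fun i i' => (if i < k ∧ k' < i' then f i i' else 0) +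
          (if i' ≤ k' then f i i' else 0)) := by
      refine S_congr _ _ _ _ _ fun i i' h0 => ?_
      have h2 := hord i i' h0
      by_cases h3 : i' ≤ k'
      · have h4 : i < k := by
          rcases hinst with h | h
          · omega
          · rcases lt_or_eq_of_le (show i ≤ k by omega) with h5 | h5
            · exact h5
            · exfalso
              apply h0
              have h6 : i' = k := by omega
              rw [h5, h6]; exact h
        rw [if_pos h4, if_neg (by omega), if_pos h3, zero_add]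
      · by_cases h4 : i < k
        · rw [if_pos h4, if_pos ⟨h4, by omega⟩, if_neg h3, add_zero]
        · rw [if_neg h4, if_neg (by omega), if_neg h3, add_zero]
    rw [S_add] at h1
    linarith
  have r0 : S a b m (fun i i' => if i < k ∧ k' < i' then 1 else 0) = T.H (k - 1) k' := by
    have := reg (fun _ _ => 1)
    rw [this, S_lt_one hc hr, S_le_one hc hr]
    rfl
  have r1 : S a b m (fun i i' => if i < k ∧ k' < i' then ζ i i' else 0) =
      T.L k * ξ - T.R k' * ν := by
    rw [reg ζ, S_Am, S_Bm, hA, hB]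
  set S2 := S a b m (fun i i' => if i < k ∧ k' < i' then ζ i i' ^ 2 else 0) with hS2
  have hcs := S_cs (a := a) (b := b) hc.nn (fun i i' => i < k ∧ k' < i') ζ
  rw [r0, r1, ← hS2] at hcs
  have hS2' : 0 ≤ S2 := S_nonneg _ _ _ _ hc.nn (fun i i' => by split_ifs <;> positivity)
  have hg : 0 ≤ T.H (k - 1) k' := by
    rw [← r0]
    exact S_nonneg _ _ _ _ hc.nn (fun i i' => by split_ifs <;> norm_num)
  -- the squares
  have hsq1 : 0 ≤ S a b m (fun i i' => if i = k + 1 then (xc xN xI i i' - ξ) ^ 2 else 0) :=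
    S_nonneg _ _ _ _ hc.nn (fun i i' => by split_ifs <;> positivity)
  have hsq2 : 0 ≤ S a b m (fun i i' => if i' = k' - 1 then (nc nN nI i i' - ν) ^ 2 else 0) :=
    S_nonneg _ _ _ _ hc.nn (fun i i' => by split_ifs <;> positivity)
  -- the heart
  have hheart : 0 ≤ (T.L k - T.L (k + 1)) * ξ ^ 2 + (T.R k' - T.R (k' - 1)) * ν ^ 2 + S2 := by
    refine heart (T.H (k - 1) k') (T.L k) (T.L (k + 1)) (T.R k') (T.R (k' - 1)) ξ ν
      (T.L k * ξ - T.R k' * ν) S2 hg (H.hh.L0 k) (H.hh.R0 k') (fun h => hp.zX k h)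
      (fun h => hp.zN k' h) ?_ rfl hcs hS2'
    intro x y w x' y' w' hpos
    have f1 : T.H (k - 1 + 2) k' = T.H (k - 1) k' + T.L k + T.L (k + 1) := by
      have h1 : k - 1 + 2 = k + 1 := by ring
      have h2 : k + 1 - 1 = k := by ring
      unfold Pr.H Pr.L; rw [h1, h2]; ring
    have f2 : T.H (k - 1 + 1) (k' - 1) = T.H (k - 1) k' + T.L k + T.R k' := by
      have h1 : k - 1 + 1 = k := by ring
      unfold Pr.H Pr.L Pr.R; rw [h1]; ring
    have f3 : T.H (k - 1) (k' - 2) = T.H (k - 1) k' + T.R k' + T.R (k' - 1) := by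
      have h1 : k' - 1 - 1 = k' - 2 := by ring
      unfold Pr.H Pr.R; rw [h1]; ring
    have f4 : T.H (k - 1 + 1) k' = T.H (k - 1) k' + T.L k := by
      have h1 : k - 1 + 1 = k := by ring
      unfold Pr.H Pr.L; rw [h1]; ring
    have f5 : T.H (k - 1) (k' - 1) = T.H (k - 1) k' + T.R k' := by
      unfold Pr.H Pr.R; ring
    have := hop x y w x' y' w'
    unfold Pr.W3 at this
    rw [f1, f2, f3, f4, f5] at this
    exact this hpos
  -- the row form
  have hrow := hKAP n a b m ζ xN xI nN nI j j' (by omega) hord hoc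
  have hfin : rowQ n a b m ζ xN xI nN nI j j' =
      S a b m (fun i i' => if i = k + 1 then (xc xN xI i i' - ξ) ^ 2 else 0) +
      S a b m (fun i i' => if i' = k' - 1 then (nc nN nI i i' - ν) ^ 2 else 0) +
      ((T.L k - T.L (k + 1)) * ξ ^ 2 + (T.R k' - T.R (k' - 1)) * ν ^ 2 + S2) := by
    have hK : rowQ n a b m ζ xN xI nN nI j j' = S a b m (fun i i' =>
        ((if i = k + 1 then (xc xN xI i i' - ξ) ^ 2 else 0) +
        ((if i' = k' - 1 then (nc nN nI i i' - ν) ^ 2 else 0) +
        ((if i < k ∧ k' < i' then ζ i i' ^ 2 else 0) +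
        ((2 * ξ) * (if i = k + 1 then xc xN xI i i' else 0) +
        ((- ξ ^ 2) * (if i = k + 1 then 1 else 0) +
        ((- ξ ^ 2) * (if i = k then 1 else 0) +
        ((- 2 * ξ) * (if i = k then ζ i i' else 0) +
        ((2 * ν) * (if i' = k' - 1 then nc nN nI i i' else 0) +
        ((- ν ^ 2) * (if i' = k' - 1 then 1 else 0) +
        ((- ν ^ 2) * (if i' = k' then 1 else 0) +
        (2 * ν) * (if i' = k' then ζ i i' else 0)))))))))))) := by
      rw [hrow]
      change S a b m _ = _
      refine S_congr _ _ _ _ _ fun i i' h0 => ?_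
      have h2 := hord i i' h0
      have hxk : i = k → xc xN xI i i' = ξ := by
        intro h
        unfold xc
        split_ifs
        · rw [h, hx]
        · rw [h]
      have hnk : i' = k' → nc nN nI i i' = ν := by
        intro h
        unfold nc
        split_ifs
        · rw [h, hn]
        · rw [h]
      -- the mixed weight
      have hw : ((if i ≤ n - 2 - j then (1 : ℝ) else 0) - (if i' ≤ n - j' then 1 else 0)) *
          ζ i i' ^ 2 = if i < k ∧ k' < i' then ζ i i' ^ 2 else 0 := by
        by_cases h3 : i' ≤ k'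
        · have h4 : i < k := by
            rcases hinst with h | h
            · omega
            · rcases lt_or_eq_of_le (show i ≤ k by omega) with h5 | h5
              · exact h5
              · exfalso
                apply h0
                have h6 : i' = k := by omega
                rw [h5, h6]; exact h
          rw [if_pos (by omega), if_pos (by omega), if_neg (by omega)]; ring
        · by_cases h4 : i < k
          · rw [if_pos (by omega), if_neg (by omega), if_pos ⟨h4, by omega⟩]; ring
          · rw [if_neg (by omega), if_neg (by omega), if_neg (by omega)]; ring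
      have hx1 : (if i = n - j then (xc xN xI i i') ^ 2 else 0) =
          (if i = k + 1 then (xc xN xI i i' - ξ) ^ 2 else 0) +
          (2 * ξ) * (if i = k + 1 then xc xN xI i i' else 0) +
          (- ξ ^ 2) * (if i = k + 1 then 1 else 0) := by
        by_cases h : i = k + 1
        · rw [if_pos (by omega), if_pos h, if_pos h, if_pos h]; ring
        · rw [if_neg (by omega), if_neg h, if_neg h, if_neg h]; ring
      have hx2 : (if i = n - 1 - j then (xc xN xI i i') ^ 2 + 2 * xc xN xI i i' * ζ i i' else 0) =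
          ξ ^ 2 * (if i = k then 1 else 0) + (2 * ξ) * (if i = k then ζ i i' else 0) := by
        by_cases h : i = k
        · rw [if_pos (by omega), if_pos h, if_pos h, hxk h]; ring
        · rw [if_neg (by omega), if_neg h, if_neg h]; ring
      have hn1 : (if i' = n - j' - 1 then (nc nN nI i i') ^ 2 else 0) =
          (if i' = k' - 1 then (nc nN nI i i' - ν) ^ 2 else 0) +
          (2 * ν) * (if i' = k' - 1 then nc nN nI i i' else 0) +
          (- ν ^ 2) * (if i' = k' - 1 then 1 else 0) := by
        by_cases h : i' = k' - 1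
        · rw [if_pos (by omega), if_pos h, if_pos h, if_pos h]; ring
        · rw [if_neg (by omega), if_neg h, if_neg h, if_neg h]; ring
      have hn2 : (if i' = n - j' then (nc nN nI i i') ^ 2 - 2 * nc nN nI i i' * ζ i i' else 0) =
          ν ^ 2 * (if i' = k' then 1 else 0) - (2 * ν) * (if i' = k' then ζ i i' else 0) := by
        by_cases h : i' = k'
        · rw [if_pos (by omega), if_pos h, if_pos h, hnk h]; ring
        · rw [if_neg (by omega), if_neg h, if_neg h]; ring
      have hlast : (if j = j' ∧ i' = i + 1 ∧ i' = n - j then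
          (oc ζ xN xI nN nI i i') ^ 2 else 0) = 0 := by
        rw [if_neg]; rintro ⟨h, _⟩; omega
      rw [hw, hx1, hx2, hn1, hn2, hlast]
      ring
    rw [hK, S_add, S_add, S_add, S_add, S_add, S_add, S_add, S_add, S_add, S_add,
      S_smul, S_smul, S_smul, S_smul, S_smul, S_smul, S_smul, S_smul,
      e1, e1', e2, e2', e3, e4, e5, e6, ← hA, ← hB, ← hS2]
    ring
  rw [hfin]
  linarith

/-- PACKET R1 -/
theorem r1 (h : StmtKAP) : StmtR1 := by
  intro T n a b m opt ζ xN xI nN nI H j j' hj hx hn
  refine core h T n a b m opt ζ xN xI nN nI H j j' (n - 1 - j) (n - j') (by omega) rfl rfl hx hn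
    (Or.inl (by omega)) ?_
  exact H.hh.nat (n - 1 - j - 1) (n - j') (by omega)

/-- PACKET R2 -/
theorem r2 (h : StmtKAP) : StmtR2 := by
  intro T n a b m opt ζ xN xI nN nI H j hj
  have hk : n - (j + 1) = n - 1 - j := by ring
  refine core h T n a b m opt ζ xN xI nN nI H j (j + 1) (n - 1 - j) (n - (j + 1)) (by omega) rfl
    rfl (H.par.tieX _ fun h => by linarith [h.1]) ?_ (Or.inr ?_) ?_
  · rw [hk]; exact H.par.tieN _ fun h => by linarith [h.1]
  · rw [H.cpl.inst]
    unfold Pr.al
    rw [max_eq_left (by linarith)]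
  · have h1 := H.hh.one (n - 1 - j)
    have h2 : T.hp (n - 1 - j) = T.H (n - 1 - j - 1) (n - 1 - j) := by
      unfold Pr.hp
      rw [max_eq_right hj]
      rfl
    rw [h2] at h1
    rw [hk]; exact h1

end Pool.Agent.Helper54.LZ
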